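import Pool.Agent.R759.HexVol

/-!
# The circumradius minimiser among rhombic dodecahedra of unit volume is not unique in `ℝ³`

Negative answer to Q1. The definitions `zonotope`, `IsRegularSimplex`, `IsRegularRD` are in
`Pool/Agent/R759/RDDefs.lean`, `circumradius` is in `Pool/Agent/R759/HexMain.lean`; volume is Lebesgue
measure.

Let `q_1, …, q_4` be the vertices of a regular tetrahedron centred at `o` and let `p_i = q_i + v` for
a small vector `v`. The volume of `∑ [o, p_i]` is `∑ |det (p_j)_{j ≠ i}| = |det (1, p_i)|`, which does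
not depend on `v` as long as `o` is in the tetrahedron with vertices `p_i`. Half the largest distance
of two vertices of `∑ [o, p_i]` is `½ max |∑ ε_i p_i|`; for two plus signs and two minus signs
`∑ ε_i p_i = ∑ ε_i q_i` does not depend on `v`, and for the other signs `∑ ε_i p_i` is shorter if
`v` is small.
-/

set_option autoImplicit false

namespace Pool.Agent.Results.MP_de3f1f_gt.NotUnique

open Pool.Agent.R759.RD Pool.Agent.R759.Hex MeasureTheory

/-- There are a regular rhombic dodecahedron `∑ [o, q_i]` of volume `1` in `ℝ³` and a vector `v ≠ 0`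
such that for all `0 < c ≤ 2/5` the zonotope `∑ [o, q_i + c v]` is a rhombic dodecahedron (its
generators span `ℝ³`) of volume `1` which is not regular and which has the same circumradius as
`∑ [o, q_i]`. -/
theorem result : ∃ (q : Fin (3 + 1) → EuclideanSpace ℝ (Fin 3)) (v : EuclideanSpace ℝ (Fin 3)),
    IsRegularSimplex q ∧ volume (zonotope q) = 1 ∧ v ≠ 0 ∧
    ∀ c : ℝ, 0 < c → c ≤ 2 / 5 →
      Submodule.span ℝ (Set.range fun i => q i + c • v) = ⊤ ∧
      volume (zonotope fun i => q i + c • v) = 1 ∧
      ¬ IsRegularRD (zonotope fun i => q i + c • v) ∧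
      circumradius (zonotope fun i => q i + c • v) = circumradius (zonotope q) := by
  obtain ⟨s, hs0, hs⟩ : ∃ s : ℝ, 0 < s ∧ 16 * s ^ 3 = 1 := by
    refine ⟨(1 / 16 : ℝ) ^ ((1 : ℝ) / 3), by positivity, ?_⟩
    rw [← Real.rpow_natCast, ← Real.rpow_mul (by norm_num)]
    norm_num
  refine ⟨P s 0, s • !₂[1, 0, 0], regular_P hs0, ?_, ?_, ?_⟩
  · rw [volume_P s 0 hs0 le_rfl (by norm_num), hs, ENNReal.ofReal_one]
  · intro h
    have := congrArg (fun x : EuclideanSpace ℝ (Fin 3) => x 0) h
    simp at this
    exact hs0.ne' this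
  · intro c hc0 hc
    have e : (fun i => P s 0 i + c • s • !₂[1, 0, 0]) = P s c := by
      funext i
      ext k
      fin_cases i <;> fin_cases k <;> simp [P] <;> ring
    rw [e]
    refine ⟨?_, ?_, not_regular_P hs0 hc0 hc, ?_⟩
    · rw [eq_top_iff]
      intro x _
      have hP : ∀ i, P s c i ∈ Submodule.span ℝ (Set.range (P s c)) := fun i =>
        Submodule.subset_span ⟨i, rfl⟩
      have hx : x = (x 0 / (2 * s * (1 + c))) • (P s c 0 + P s c 1) +
          (x 1 / (4 * s)) • (P s c 0 - P s c 1 + (P s c 2 - P s c 3)) +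
          (x 2 / (4 * s)) • (P s c 0 - P s c 1 - (P s c 2 - P s c 3)) := by
        have h1 : 1 + c ≠ 0 := by positivity
        ext k
        fin_cases k <;> simp [P] <;> field_simp <;> ring
      rw [hx]
      refine Submodule.add_mem _ (Submodule.add_mem _ (Submodule.smul_mem _ _ ?_)
        (Submodule.smul_mem _ _ ?_)) (Submodule.smul_mem _ _ ?_)
      · exact Submodule.add_mem _ (hP 0) (hP 1)
      · exact Submodule.add_mem _ (Submodule.sub_mem _ (hP 0) (hP 1))
          (Submodule.sub_mem _ (hP 2) (hP 3))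
      · exact Submodule.sub_mem _ (Submodule.sub_mem _ (hP 0) (hP 1))
          (Submodule.sub_mem _ (hP 2) (hP 3))
    · rw [volume_P s c hs0 hc0.le hc, hs, ENNReal.ofReal_one]
    · rw [circumradius_P hs0 hc0.le hc, circumradius_P hs0 le_rfl (by norm_num)]

end Pool.Agent.Results.MP_de3f1f_gt.NotUnique
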